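import Pool.Agent.Y318.LF.Stm

/-! Project LF, job CJAX: conjugation by linear automorphisms. -/

set_option autoImplicit false
set_option linter.unusedSectionVars false
set_option linter.unusedVariables false

open Set Filter Topology MeasureTheory

namespace Pool.Agent.Y301.LF

open Pool.Agent.H728R2.OS Pool.Agent.H637R2.TD Pool.Agent.Y318.LF

section General
variable {X : Type} [MetricSpace X] [CompactSpace X]

/-- the conjugate -/
def cg (T f : X ≃ₜ X) : X ≃ₜ X := (T.symm.trans f).trans T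

lemma cg_apply (T f : X ≃ₜ X) (x : X) : cg T f x = T (f (T.symm x)) := rfl

lemma cg_T (T f : X ≃ₜ X) (x : X) : cg T f (T x) = T (f x) := by
  rw [cg_apply, Homeomorph.symm_apply_apply]

lemma cg_symm (T f : X ≃ₜ X) : (cg T f).symm = cg T f.symm := by
  ext x; rfl

lemma cg_cg (T f : X ≃ₜ X) : cg T.symm (cg T f) = f := by
  ext x
  rw [cg_apply, cg_apply]
  simp

lemma cg_iter (T f : X ≃ₜ X) (n : ℕ) (x : X) : (cg T f)^[n] (T x) = T (f^[n] x) := by
  induction n with
  | zero => rfl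
  | succ n ih => rw [Function.iterate_succ_apply', ih, cg_T, Function.iterate_succ_apply']

lemma per_sub (T f : X ≃ₜ X) : T '' Per f ⊆ Per (cg T f) := by
  rintro _ ⟨x, ⟨n, hn, hx⟩, rfl⟩
  exact ⟨n, hn, by rw [cg_iter, hx]⟩

lemma omega_sub (T f : X ≃ₜ X) : T '' Omega f ⊆ Omega (cg T f) := by
  rintro _ ⟨x, hx, rfl⟩ U hU
  obtain ⟨n, hn, y, ⟨z, hz, rfl⟩, hy⟩ := hx (T ⁻¹' U) (T.continuous.continuousAt hU)
  exact ⟨n, hn, T (f^[n] z), ⟨T z, hz, cg_iter T f n z⟩, hy⟩

lemma chain_sub (T f : X ≃ₜ X) : T '' ChainRec f ⊆ ChainRec (cg T f) := by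
  rintro _ ⟨x, hx, rfl⟩ ε hε
  have hu : UniformContinuous T := CompactSpace.uniformContinuous_of_continuous T.continuous
  obtain ⟨δ, hδ, h⟩ := Metric.uniformContinuous_iff.1 hu ε hε
  obtain ⟨n, c, hn, h0, h1, h2⟩ := hx δ hδ
  refine ⟨n, fun i => T (c i), hn, congrArg T h0, congrArg T h1, fun i hi => ?_⟩
  rw [cg_T]
  exact h (h2 i hi)

/-- from an inclusion for all pairs to the equality -/
lemma eq_of_sub {S : (X ≃ₜ X) → Set X} (h : ∀ T f : X ≃ₜ X, T '' S f ⊆ S (cg T f)) (T f : X ≃ₜ X) :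
    S (cg T f) = T '' S f := by
  apply Subset.antisymm _ (h T f)
  intro x hx
  have h1 := h T.symm (cg T f) ⟨x, hx, rfl⟩
  rw [cg_cg] at h1
  exact ⟨_, h1, T.apply_symm_apply x⟩

lemma per_eq (T f : X ≃ₜ X) : Per (cg T f) = T '' Per f := eq_of_sub per_sub T f

lemma omega_eq (T f : X ≃ₜ X) : Omega (cg T f) = T '' Omega f := eq_of_sub omega_sub T f

lemma chain_eq (T f : X ≃ₜ X) : ChainRec (cg T f) = T '' ChainRec f := eq_of_sub chain_sub T f

lemma ws_sub (T f : X ≃ₜ X) (S : Set X) : T '' Ws f S ⊆ Ws (cg T f) (T '' S) := by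
  rintro _ ⟨y, ⟨x, hx, hy⟩, rfl⟩
  refine ⟨T x, ⟨x, hx, rfl⟩, ?_⟩
  have hu : UniformContinuous T := CompactSpace.uniformContinuous_of_continuous T.continuous
  rw [Metric.tendsto_atTop] at hy ⊢
  intro ε hε
  obtain ⟨δ, hδ, h⟩ := Metric.uniformContinuous_iff.1 hu ε hε
  obtain ⟨N, hN⟩ := hy δ hδ
  refine ⟨N, fun n hn => ?_⟩
  have h1 := hN n hn
  rw [dist_zero_right, Real.norm_eq_abs, abs_of_nonneg dist_nonneg] at h1 ⊢
  rw [cg_iter, cg_iter]
  exact h h1

lemma ws_eq (T f : X ≃ₜ X) (S : Set X) : Ws (cg T f) S = T '' Ws f (T ⁻¹' S) := by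
  apply Subset.antisymm
  · intro x hx
    have h1 := ws_sub T.symm (cg T f) S ⟨x, hx, rfl⟩
    rw [cg_cg] at h1
    refine ⟨_, ?_, T.apply_symm_apply x⟩
    have h2 : T.symm '' S = T ⁻¹' S := by
      ext y
      simp only [mem_image, mem_preimage]
      constructor
      · rintro ⟨z, hz, rfl⟩
        rwa [T.apply_symm_apply]
      · intro hy
        exact ⟨T y, hy, T.symm_apply_apply y⟩
    rwa [h2] at h1
  · have h1 := ws_sub T f (T ⁻¹' S)
    rwa [image_preimage_eq S T.surjective] at h1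

lemma closure_sub (T f : X ≃ₜ X) {A B : Set X} (h : A ⊆ closure B) : T '' A ⊆ closure (T '' B) := by
  rw [← T.image_closure]
  exact image_mono h

lemma nocycle (T f : X ≃ₜ X) (h : NoCycle f) : NoCycle (cg T f) := by
  intro k Λ hΛ n c hc
  have hsp : IsSpectral f (fun i => T ⁻¹' Λ i) := by
    refine ⟨fun i => (hΛ.closed i).preimage T.continuous, fun i => ?_, fun i j hij => ?_, ?_, fun i => ?_⟩
    · have h1 := hΛ.invariant i
      ext x
      simp only [mem_image, mem_preimage]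
      constructor
      · rintro ⟨y, hy, rfl⟩
        rw [← h1, ← cg_T]
        exact ⟨T y, hy, rfl⟩
      · intro hx
        rw [← h1] at hx
        obtain ⟨y, hy, hyx⟩ := hx
        refine ⟨T.symm y, by rwa [T.apply_symm_apply], ?_⟩
        rw [cg_apply] at hyx
        exact T.injective hyx
    · exact (hΛ.disjoint i j hij).preimage T
    · rw [← preimage_iUnion, hΛ.union, omega_eq, preimage_image_eq _ T.injective]
    · obtain ⟨x, hx, h1⟩ := hΛ.dense_orbit i
      refine ⟨T.symm x, by rw [mem_preimage, T.apply_symm_apply]; exact hx, ?_⟩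
      intro y hy
      have h2 := h1 hy
      have h3 : T.symm (T y) ∈ T.symm '' closure (range (fun n : ℕ => (cg T f)^[n] x) ∪
          range fun n : ℕ => (cg T f).symm^[n] x) := ⟨_, h2, rfl⟩
      rw [T.symm.image_closure, T.symm_apply_apply] at h3
      refine closure_mono ?_ h3
      rintro _ ⟨z, hz, rfl⟩
      rcases hz with ⟨n, rfl⟩ | ⟨n, rfl⟩
      · left
        refine ⟨n, ?_⟩
        have := cg_iter T f n (T.symm x)
        rw [T.apply_symm_apply] at this
        simp only [this, T.symm_apply_apply]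
      · right
        refine ⟨n, ?_⟩
        have := cg_iter T f.symm n (T.symm x)
        rw [T.apply_symm_apply, ← cg_symm] at this
        simp only [this, T.symm_apply_apply]
  obtain ⟨i, hi⟩ := h k _ hsp n c hc
  refine ⟨i, ?_⟩
  rw [ws_eq, cg_symm, ws_eq, ← image_inter T.injective, hi, image_empty]

end General

section Hyp
variable {d : ℕ} {A : (Fin d → ℝ) ≃L[ℝ] (Fin d → ℝ)} {T : Torus d ≃ₜ Torus d}

lemma cj_iter (F : (Fin d → ℝ) → (Fin d → ℝ)) (m : ℕ) : (cj A F)^[m] = cj A (F^[m]) := by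
  funext z
  induction m with
  | zero => simp [cj]
  | succ m ih =>
    rw [Function.iterate_succ_apply', ih]
    unfold cj
    rw [Function.iterate_succ_apply', A.symm_apply_apply]

lemma cj_lift (hT : IsLift toTorus A T) (hT' : IsLift toTorus A.symm T.symm) {f : Torus d ≃ₜ Torus d}
    {F : (Fin d → ℝ) → (Fin d → ℝ)} (hF : IsLift toTorus F f) : IsLift toTorus (cj A F) (cg T f) := by
  intro z
  have h1 : toTorus (cj A F z) = T (toTorus (F (A.symm z))) := hT _
  have h2 := hF (A.symm z)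
  have h3 : toTorus (A.symm z) = T.symm (toTorus z) := hT' z
  rw [h1, h2, h3]
  rfl

lemma cj_fderiv (H : (Fin d → ℝ) → (Fin d → ℝ)) (z : Fin d → ℝ) (v : Fin d → ℝ) :
    fderiv ℝ (cj A H) z v = A (fderiv ℝ H (A.symm z) (A.symm v)) := by
  have h1 : cj A H = A ∘ (H ∘ A.symm) := rfl
  rw [h1, A.comp_fderiv, A.symm.comp_right_fderiv]
  rfl

lemma cj_smooth {F : (Fin d → ℝ) → (Fin d → ℝ)} (hF : ContDiff ℝ 1 F) : ContDiff ℝ 1 (cj A F) :=
  A.contDiff.comp (hF.comp A.symm.contDiff)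

lemma hyp (hT : IsLift toTorus A T) (hT' : IsLift toTorus A.symm T.symm) {f : Torus d ≃ₜ Torus d}
    {S : Set (Torus d)} (h : IsHyperbolic toTorus f S) :
    IsHyperbolic toTorus (cg T f) (T '' S) := by
  obtain ⟨F, G, hF, hG, lF, lG, P, c, μ, hc, hμ, hμ1, hP, h1, h2, h3⟩ := h
  refine ⟨cj A F, cj A G, cj_smooth hF, cj_smooth hG, cj_lift hT hT' lF, ?_,
    fun x => (A : (Fin d → ℝ) →L[ℝ] (Fin d → ℝ)) ∘L P (T.symm x) ∘L
      (A.symm : (Fin d → ℝ) →L[ℝ] (Fin d → ℝ)),
    c * ((‖(A : (Fin d → ℝ) →L[ℝ] (Fin d → ℝ))‖ + 1) *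
      (‖(A.symm : (Fin d → ℝ) →L[ℝ] (Fin d → ℝ))‖ + 1)), μ, by positivity, hμ, hμ1, ?_, ?_, ?_, ?_⟩
  · rw [cg_symm]
    exact cj_lift hT hT' lG
  · have h4 : ContinuousOn (fun x => P (T.symm x)) (T '' S) := by
      refine hP.comp T.symm.continuous.continuousOn ?_
      rintro _ ⟨x, hx, rfl⟩
      rwa [T.symm_apply_apply]
    exact continuousOn_const.clm_comp (h4.clm_comp continuousOn_const)
  · rintro _ ⟨x, hx, rfl⟩
    have h4 := h1 x hx
    ext1 v
    have h5 := congrArg (fun L : (Fin d → ℝ) →L[ℝ] (Fin d → ℝ) => L (A.symm v)) h4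
    simp only [ContinuousLinearMap.comp_apply, ContinuousLinearEquiv.coe_coe, T.symm_apply_apply,
      A.symm_apply_apply] at h5 ⊢
    rw [h5]
  · intro z hz
    have hw : toTorus (A.symm z) = T.symm (toTorus z) := hT' z
    have hzS : toTorus (A.symm z) ∈ S := by
      obtain ⟨x, hx, hxz⟩ := hz
      rw [hw, ← hxz, T.symm_apply_apply]
      exact hx
    have h4 := h2 (A.symm z) hzS
    ext1 v
    have h5 := congrArg (fun L : (Fin d → ℝ) →L[ℝ] (Fin d → ℝ) => L (A.symm v)) h4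
    simp only [ContinuousLinearMap.comp_apply] at h5
    simp only [ContinuousLinearMap.comp_apply, ContinuousLinearEquiv.coe_coe, cj_fderiv,
      A.symm_apply_apply, cg_apply, T.symm_apply_apply]
    rw [← hw, h5]
  · intro m z hz v
    have hw : toTorus (A.symm z) = T.symm (toTorus z) := hT' z
    have hzS : toTorus (A.symm z) ∈ S := by
      obtain ⟨x, hx, hxz⟩ := hz
      rw [hw, ← hxz, T.symm_apply_apply]
      exact hx
    obtain ⟨h4, h5⟩ := h3 m (A.symm z) hzS (A.symm v)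
    set NA := ‖(A : (Fin d → ℝ) →L[ℝ] (Fin d → ℝ))‖ with hNA
    set NB := ‖(A.symm : (Fin d → ℝ) →L[ℝ] (Fin d → ℝ))‖ with hNB
    have hA : ∀ u, ‖A u‖ ≤ (NA + 1) * ‖u‖ := fun u => by
      have := (A : (Fin d → ℝ) →L[ℝ] (Fin d → ℝ)).le_opNorm u
      rw [ContinuousLinearEquiv.coe_coe] at this
      refine this.trans (mul_le_mul_of_nonneg_right (by linarith) (norm_nonneg _))
    have hB : ∀ u, ‖A.symm u‖ ≤ (NB + 1) * ‖u‖ := fun u => by
      have := (A.symm : (Fin d → ℝ) →L[ℝ] (Fin d → ℝ)).le_opNorm u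
      rw [ContinuousLinearEquiv.coe_coe] at this
      refine this.trans (mul_le_mul_of_nonneg_right (by linarith) (norm_nonneg _))
    have hNA0 : 0 ≤ NA := norm_nonneg _
    have hNB0 : 0 ≤ NB := norm_nonneg _
    have key : ∀ (u w : Fin d → ℝ), ‖w‖ ≤ c * μ ^ m * ‖u‖ → ‖A w‖ ≤
        c * ((NA + 1) * (NB + 1)) * μ ^ m * ‖A u‖ := fun u w hwu => by
      have e1 := hA w
      have e2 := hB (A u)
      rw [A.symm_apply_apply] at e2
      calc ‖A w‖ ≤ (NA + 1) * ‖w‖ := e1
        _ ≤ (NA + 1) * (c * μ ^ m * ‖u‖) := by gcongr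
        _ ≤ (NA + 1) * (c * μ ^ m * ((NB + 1) * ‖A u‖)) := by gcongr
        _ = _ := by ring
    rw [cj_iter, cj_iter, cj_fderiv, cj_fderiv]
    simp only [ContinuousLinearMap.comp_apply, ContinuousLinearEquiv.coe_coe, ← hw]
    rw [A.symm_apply_apply, map_sub, A.symm_apply_apply]
    have e3 : v - A (P (toTorus (A.symm z)) (A.symm v)) =
        A (A.symm v - P (toTorus (A.symm z)) (A.symm v)) := by
      rw [map_sub, A.apply_symm_apply]
    rw [e3]
    exact ⟨key _ _ h4, key _ _ h5⟩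

end Hyp

theorem t : S_CJAX := by
  intro d A T _ hT hT' f
  change (AxiomA toTorus f → AxiomA toTorus (cg T f)) ∧
    (ChainHyp toTorus f → ChainHyp toTorus (cg T f)) ∧
    (NoCycle f → NoCycle (cg T f)) ∧
    ((Omega f).Finite → (Omega (cg T f)).Finite) ∧
    ((ChainRec f).Finite → (ChainRec (cg T f)).Finite)
  refine ⟨fun h => ⟨?_, ?_⟩, fun h => ⟨?_, ?_⟩, nocycle T f, fun h => ?_, fun h => ?_⟩
  · rw [omega_eq]
    exact hyp hT hT' h.1
  · rw [omega_eq, per_eq]
    exact closure_sub T f h.2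
  · rw [chain_eq]
    exact hyp hT hT' h.1
  · rw [chain_eq, per_eq]
    exact closure_sub T f h.2
  · rw [omega_eq]
    exact h.image _
  · rw [chain_eq]
    exact h.image _

end Pool.Agent.Y301.LF
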